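import Pool.Agent.Lib.MP_d03285_co.Data15

set_option autoImplicit false

namespace Pool.Agent.Results.MP_d03285_co.LowerBound

open Pool.Agent.Lib.MP_d03285_co

/-- For every real `γ < log 15 / log 125 = 0.5608...` one has `f(N) ≥ c N^γ` for all `N ≥ 1` with
some `c > 0`, where `f(N) = maxAdmissible N`. -/
theorem result (γ : ℝ) (hγ : γ < Real.log 15 / Real.log 125) :
    ∃ c : ℝ, 0 < c ∧ ∀ N : ℕ, 1 ≤ N → c * (N : ℝ) ^ γ ≤ (maxAdmissible N : ℝ) := by
  refine cert15.lower (by norm_num) (by norm_num) (by norm_num) γ ?_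
  have h1 : ((5 : ℕ) : ℝ) ^ 3 = 125 := by norm_num
  have h2 : ((15 : ℕ) : ℝ) = 15 := by norm_num
  rw [h1, h2]
  exact hγ

end Pool.Agent.Results.MP_d03285_co.LowerBound
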